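import Mathlib
import Pool.Agent.Helper64.RK.Prime

/-!
# Theorem R, D2: the resultant
-/

set_option autoImplicit false

namespace Pool.Agent.Helper16.R

open Pool.Agent.Helper92.RK Pool.Agent.Helper64.RK

section poly

open Polynomial

/-- Bezout for an irreducible primitive polynomial and a polynomial that it does not divide. -/
theorem bez {R : Type*} [CommRing R] [IsDomain R] [UniqueFactorizationMonoid R] (F h : R[X])
    (hF : Irreducible F) (hp : F.IsPrimitive) (hh : ¬ F ∣ h) :
    ∃ (g : R) (u v : R[X]), g ≠ 0 ∧ u * F + v * h = C g := by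
  classical
  let _ : StrongNormalizationMonoid R := UniqueFactorizationMonoid.strongNormalizationMonoid
  let _ : NormalizedGCDMonoid R := UniqueFactorizationMonoid.toNormalizedGCDMonoid R
  have hinj : Function.Injective (algebraMap R (FractionRing R)) := IsFractionRing.injective _ _
  have h1 : Irreducible (F.map (algebraMap R (FractionRing R))) :=
    (hp.irreducible_iff_irreducible_map_fraction_map (K := FractionRing R)).mp hF
  have h2 : IsCoprime (F.map (algebraMap R (FractionRing R)))
      (h.map (algebraMap R (FractionRing R))) := by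
    rw [h1.coprime_iff_not_dvd]
    intro hd
    exact hh (hp.dvd_of_fraction_map_dvd_fraction_map (K := FractionRing R) hd)
  obtain ⟨u', v', huv⟩ := h2
  obtain ⟨b1, hb1, e1⟩ := IsLocalization.integerNormalization_spec (nonZeroDivisors R) u'
  obtain ⟨b2, hb2, e2⟩ := IsLocalization.integerNormalization_spec (nonZeroDivisors R) v'
  refine ⟨b1 * b2, C b2 * IsLocalization.integerNormalization (nonZeroDivisors R) u',
    C b1 * IsLocalization.integerNormalization (nonZeroDivisors R) v',
    mul_ne_zero (nonZeroDivisors.ne_zero hb1) (nonZeroDivisors.ne_zero hb2), ?_⟩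
  apply map_injective _ hinj
  rw [Algebra.smul_def, Polynomial.algebraMap_apply] at e1 e2
  simp only [Polynomial.map_add, Polynomial.map_mul, map_C, e1, e2, map_mul]
  linear_combination (C (algebraMap R (FractionRing R) b1) *
    C (algebraMap R (FractionRing R) b2)) * huv

end poly

open MvPolynomial

/-- D2 -/
theorem bezout {b : ℕ} {M : Finset (Fin b →₀ ℕ)} {K : Type} [Field K] [CharZero K] {s : ℕ}
    (a : Ix (s + 1) M → K)
    (hc : IsRelPrime (form (sub 2 a)) (form (sub 1 a))) (hA : form (sub 2 a) ≠ 0)
    (hq : ∀ g : MvPolynomial (Fin s ⊕ Fin b) K, g ^ 2 ≠ dis a)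
    (h : MvPolynomial (Fin (s + 1) ⊕ Fin b) K) (hh : h ∉ Ideal.span {form a}) :
    ∃ (g : MvPolynomial (Fin s ⊕ Fin b) K) (u v : MvPolynomial (Fin (s + 1) ⊕ Fin b) K),
      g ≠ 0 ∧ u * form a + v * h = rename (Sum.map Fin.castSucc id) g := by
  have h1 := irr_quad (form (sub 2 a)) (form (sub 1 a)) (form (sub 0 a)) hA hc hq
  rw [← eo_form] at h1
  have hp : (eo K s b (form a)).IsPrimitive := by
    apply h1.isPrimitive
    rw [eo_form, Polynomial.natDegree_quadratic hA]
    norm_num
  have hd : ¬ eo K s b (form a) ∣ eo K s b h := by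
    intro hd
    apply hh
    rw [Ideal.mem_span_singleton]
    exact (map_dvd_iff (eo K s b)).mp hd
  obtain ⟨g, u, v, hg, huv⟩ := bez _ _ h1 hp hd
  refine ⟨g, (eo K s b).symm u, (eo K s b).symm v, hg, ?_⟩
  apply (eo K s b).injective
  rw [map_add, map_mul, map_mul, AlgEquiv.apply_symm_apply, AlgEquiv.apply_symm_apply, eo_rename,
    huv]

end Pool.Agent.Helper16.R
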