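import Mathlib
import Pool.Agent.Helper92.RK.Defs
import Pool.Agent.Helper76.XN.ET

/-!
# Hypersurfaces of degree two in `r` variables over a base: a good point

For general coefficients there are, over a finite extension, a constant section `x = P` and a
point `t₀` of the base at which the last derivative vanishes and the others do not.
-/

namespace Pool.Agent.Helper16.R

open MvPolynomial Pool.Agent.Helper92.RK

section gen

variable {R S : Type*} [CommRing R] [CommRing S] {r b : ℕ} {M : Finset (Fin b →₀ ℕ)}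

theorem map_cf (φ : R →+* S) (a : Ix r M → R) (x : Fin r → R) (β : M) :
    φ (cf a x β) = cf (fun e => φ (a e)) (fun i => φ (x i)) β := by
  simp only [cf, map_sum, map_mul, map_prod, map_pow]

theorem map_form (φ : R →+* S) (a : Ix r M → R) :
    map φ (form a) = form (fun e => φ (a e)) := by
  simp only [form, map_sum, map_mul, map_prod, map_pow, map_C, map_X]

theorem hom_eval {σ : Type*} (φ : R →+* S) (v : σ → R) (p : MvPolynomial σ R) :
    φ (eval v p) = eval (fun i => φ (v i)) (map φ p) := by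
  induction p using MvPolynomial.induction_on with
  | C a => simp
  | add p q hp hq => simp [hp, hq]
  | mul_X p i hp => simp [hp]

/-- the value of a derivative commutes with ring maps -/
theorem hom_pd (φ : R →+* S) (a : Ix r M → R) (v : Fin r ⊕ Fin b → R) (z : Fin r ⊕ Fin b) :
    φ (eval v (pderiv z (form a))) =
      eval (fun i => φ (v i)) (pderiv z (form fun e => φ (a e))) := by
  rw [hom_eval, ← pderiv_map, map_form]

theorem form_eq_cf (a : Ix r M → R) : form a = ∑ β : M,
    cf (fun e => C (a e)) (fun i => (X (.inl i) : MvPolynomial (Fin r ⊕ Fin b) R)) β *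
      ∏ j, X (.inr j) ^ (β : Fin b →₀ ℕ) j := by
  unfold form cf
  rw [Fintype.sum_prod_type, Finset.sum_comm]
  refine Finset.sum_congr rfl fun β _ => ?_
  rw [Finset.sum_mul]
  exact Finset.sum_congr rfl fun e _ => by ring

end gen

/-- specialisation of the parameters commutes with the derivatives in the unknowns -/
theorem pd_spec {E I : Type} (c : E → ℚ) (k : I → ℚ) (j : I) (F : MvPolynomial (E ⊕ I) ℚ) :
    eval (Sum.elim c k) (pderiv (Sum.inr j) F) =
      eval k (pderiv j (aeval (Sum.elim (fun e => C (c e)) X) F : MvPolynomial I ℚ)) := by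
  classical
  have h0 : ∀ F : MvPolynomial (E ⊕ I) ℚ, eval (Sum.elim c k) F =
      eval k (aeval (Sum.elim (fun e => C (c e)) X) F : MvPolynomial I ℚ) := by
    intro F
    induction F using MvPolynomial.induction_on with
    | C a => simp
    | add p q hp hq => simp [hp, hq]
    | mul_X p s hp =>
      rcases s with e | i <;> simp [hp]
  induction F using MvPolynomial.induction_on with
  | C a => simp
  | add p q hp hq => simp [hp, hq]
  | mul_X p s hp =>
    rcases s with e | i
    · simp [Derivation.leibniz, hp, pderiv_X]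
    · simp only [Derivation.leibniz, pderiv_X, smul_eq_mul, map_add, map_mul, hp, aeval_X,
        Sum.elim_inr, eval_X, ← h0, Pi.single_apply]
      congr 2
      by_cases hij : i = j
      · subst hij; simp
      · rw [if_neg hij, if_neg (fun h => hij (Sum.inr_injective h)), map_zero, map_zero]

section ex

variable (R : Type*) [CommRing R] {s b : ℕ} {M : Finset (Fin b →₀ ℕ)}

/-- the linear coefficients of the example -/
def lin [DecidableEq M] (u : M → Fin (s + 1)) (i : Fin (s + 1)) (β : M) : R :=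
  (if u β = i then 1 else 0) +
    if (β : Fin b →₀ ℕ) = 0 then (if i = Fin.last s then -1 else 1) else 0

/-- the coefficients of the example -/
def ex [DecidableEq M] (u : M → Fin (s + 1)) (e : Ix (s + 1) M) : R :=
  (∑ i, if e.1 = Pi.single i 1 then lin R u i e.2 else 0) +
    if e.1 = Pi.single (Fin.last s) 2 then (if (e.2 : Fin b →₀ ℕ) = 0 then 1 else 0) else 0

variable {R} {S : Type*} [CommRing S] [DecidableEq M] (u : M → Fin (s + 1))

theorem hom_lin (φ : R →+* S) (i : Fin (s + 1)) (β : M) :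
    φ (lin R u i β) = lin S u i β := by
  simp only [lin, map_add, apply_ite φ, map_one, map_zero, map_neg]

theorem hom_ex (φ : R →+* S) (e : Ix (s + 1) M) : φ (ex R u e) = ex S u e := by
  simp only [ex, map_add, map_sum, apply_ite φ, map_one, map_zero, hom_lin]

theorem prod_single {r : ℕ} (x : Fin r → R) (i : Fin r) (m : Fin 3) :
    ∏ j, x j ^ ((Pi.single i m : Fin r → Fin 3) j : ℕ) = x i ^ (m : ℕ) := by
  rw [Finset.prod_eq_single i]
  · rw [Pi.single_eq_same]
  · intro j _ hj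
    rw [Pi.single_eq_of_ne hj]
    simp
  · intro h
    exact absurd (Finset.mem_univ i) h

theorem cf_ex (x : Fin (s + 1) → R) (β : M) : cf (ex R u) x β =
    ∑ i, lin R u i β * x i + if (β : Fin b →₀ ℕ) = 0 then x (Fin.last s) ^ 2 else 0 := by
  unfold cf ex
  simp only [add_mul, Finset.sum_add_distrib, Finset.sum_mul, ite_mul, zero_mul, one_mul]
  congr 1
  · rw [Finset.sum_comm]
    refine Finset.sum_congr rfl fun i _ => ?_
    rw [Finset.sum_ite_eq']
    simp only [Finset.mem_univ, if_true]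
    rw [prod_single]
    simp
  · rw [Finset.sum_ite_eq']
    simp only [Finset.mem_univ, if_true]
    rw [prod_single]
    simp

theorem pd_base {r : ℕ} (i : Fin r) (β : Fin b →₀ ℕ) :
    pderiv (Sum.inl i) (∏ j, X (.inr j) ^ β j : MvPolynomial (Fin r ⊕ Fin b) R) = 0 := by
  classical
  have h : ∀ T : Finset (Fin b), pderiv (Sum.inl i)
      (∏ j ∈ T, X (.inr j) ^ β j : MvPolynomial (Fin r ⊕ Fin b) R) = 0 := by
    intro T
    induction T using Finset.induction_on with
    | empty => simp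
    | insert j T hj ih =>
      rw [Finset.prod_insert hj, pderiv_mul, ih, pderiv_pow, pderiv_X_of_ne (by simp)]
      simp
  exact h Finset.univ

theorem pd_ex (v : Fin (s + 1) ⊕ Fin b → R) (i : Fin (s + 1)) :
    eval v (pderiv (.inl i) (form (ex R u))) = ∑ β : M, (lin R u i β +
      if (β : Fin b →₀ ℕ) = 0 then (if i = Fin.last s then 2 * v (.inl i) else 0) else 0) *
        ∏ j, v (.inr j) ^ (β : Fin b →₀ ℕ) j := by
  rw [form_eq_cf, map_sum, map_sum]
  refine Finset.sum_congr rfl fun β _ => ?_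
  have h1 : (fun e => (C (ex R u e) : MvPolynomial (Fin (s + 1) ⊕ Fin b) R)) =
      ex (MvPolynomial (Fin (s + 1) ⊕ Fin b) R) u := by
    funext e
    exact hom_ex u C e
  rw [h1, cf_ex, pderiv_mul, pd_base, mul_zero, add_zero, map_mul, map_prod]
  congr 1
  · simp only [map_add, map_sum, ← hom_lin u (C : R →+* MvPolynomial (Fin (s + 1) ⊕ Fin b) R),
      pderiv_C_mul, pderiv_X, map_mul, eval_C]
    congr 1
    · rw [Finset.sum_eq_single i]
      · simp
      · intro j _ hj
        rw [Pi.single_eq_of_ne (fun h => hj (Sum.inl_injective h))]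
        simp
      · intro h
        exact absurd (Finset.mem_univ i) h
    · by_cases hβ : (β : Fin b →₀ ℕ) = 0
      · rw [if_pos hβ, if_pos hβ, pderiv_pow]
        by_cases hi : i = Fin.last s
        · subst hi
          simp
        · rw [if_neg hi, pderiv_X_of_ne (fun h => hi (Sum.inl_injective h).symm)]
          simp
      · rw [if_neg hβ, if_neg hβ]
        simp
  · simp

theorem sub_ex (e : Ix s M) : Helper92.RK.sub 2 (ex R u) e =
    if e.1 = 0 then (if (e.2 : Fin b →₀ ℕ) = 0 then 1 else 0) else 0 := by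
  unfold Helper92.RK.sub ex
  have h1 : ∀ i, (Fin.snoc (α := fun _ => Fin 3) e.1 2 : Fin (s + 1) → Fin 3) ≠
      Pi.single i 1 := by
    intro i h
    have h2 := congrFun h (Fin.last s)
    rw [Fin.snoc_last] at h2
    by_cases hi : i = Fin.last s
    · subst hi
      rw [Pi.single_eq_same] at h2
      exact absurd h2 (by decide)
    · rw [Pi.single_eq_of_ne (Ne.symm hi)] at h2
      exact absurd h2 (by decide)
  have h3 : (Fin.snoc (α := fun _ => Fin 3) e.1 2 : Fin (s + 1) → Fin 3) =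
      Pi.single (Fin.last s) 2 ↔ e.1 = 0 := by
    constructor
    · intro h
      funext i
      have h2 := congrFun h i.castSucc
      rw [Fin.snoc_castSucc, Pi.single_eq_of_ne (Fin.castSucc_lt_last i).ne] at h2
      exact h2
    · intro h
      funext i
      refine Fin.lastCases ?_ (fun i => ?_) i
      · rw [Fin.snoc_last, Pi.single_eq_same]
      · rw [Fin.snoc_castSucc, Pi.single_eq_of_ne (Fin.castSucc_lt_last i).ne, h]
        rfl
  simp only [h1, if_false, Finset.sum_const_zero, zero_add, h3]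

theorem form_sub_ex (h0 : 0 ∈ M) (v : Fin s ⊕ Fin b → R) :
    eval v (form (Helper92.RK.sub 2 (ex R u))) = 1 := by
  unfold form
  rw [map_sum, Finset.sum_eq_single ((0 : Fin s → Fin 3), (⟨0, h0⟩ : M))]
  · rw [sub_ex]
    simp
  · intro e _ he
    rw [sub_ex]
    by_cases h1 : e.1 = 0
    · by_cases h2 : (e.2 : Fin b →₀ ℕ) = 0
      · exact absurd (Prod.ext h1 (Subtype.ext h2)) he
      · simp [h2]
    · simp [h1]
  · intro h
    exact absurd (Finset.mem_univ _) h

end ex

section val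

variable {R S : Type*} [CommRing R] [CommRing S] {s b : ℕ} {M : Finset (Fin b →₀ ℕ)}

/-- the point `x` with unknown coordinates `u β` -/
def xv (u : M → Fin (s + 1)) (k : M ⊕ Unit → R) (i : Fin (s + 1)) : R :=
  ∑ β, if u β = i then k (.inl β) else 0

/-- the point `t` with the unknown coordinate `j₀` -/
def tv (j₀ : Fin b) (k : M ⊕ Unit → R) (j : Fin b) : R := if j = j₀ then k (.inr ()) else 1

theorem hom_xv (φ : R →+* S) (u : M → Fin (s + 1)) (k : M ⊕ Unit → R) (i : Fin (s + 1)) :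
    φ (xv u k i) = xv u (fun z => φ (k z)) i := by
  simp only [xv, map_sum, apply_ite φ, map_zero]

theorem hom_tv (φ : R →+* S) (j₀ : Fin b) (k : M ⊕ Unit → R) (j : Fin b) :
    φ (tv j₀ k j) = tv j₀ (fun z => φ (k z)) j := by
  simp only [tv, apply_ite φ, map_one]

theorem prod_tv (j₀ : Fin b) (k : M ⊕ Unit → R) (β : Fin b →₀ ℕ) :
    ∏ j, tv j₀ k j ^ β j = k (.inr ()) ^ β j₀ := by
  rw [Finset.prod_eq_single j₀]
  · simp [tv]
  · intro j _ hj
    simp [tv, hj]
  · intro h
    exact absurd (Finset.mem_univ _) h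

/-- the square system -/
noncomputable def sys (u : M → Fin (s + 1)) (j₀ : Fin b) (a : Ix (s + 1) M → R)
    (k : M ⊕ Unit → R) : M ⊕ Unit → R :=
  Sum.elim (fun β => cf a (xv u k) β)
    (fun _ => eval (Sum.elim (xv u k) (tv j₀ k)) (pderiv (.inl (Fin.last s)) (form a)))

/-- the open condition -/
noncomputable def opn (u : M → Fin (s + 1)) (j₀ : Fin b) (a : Ix (s + 1) M → R)
    (k : M ⊕ Unit → R) : R :=
  (∏ i : Fin s, eval (Sum.elim (xv u k) (tv j₀ k)) (pderiv (.inl i.castSucc) (form a))) *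
    eval (Sum.elim (fun i : Fin s => xv u k i.castSucc) (tv j₀ k))
      (form (Helper92.RK.sub 2 a)) *
    eval (Sum.elim (xv u k) (fun _ => 0)) (pderiv (.inl (Fin.last s)) (form a))

theorem hom_sys (φ : R →+* S) (u : M → Fin (s + 1)) (j₀ : Fin b) (a : Ix (s + 1) M → R)
    (k : M ⊕ Unit → R) (z : M ⊕ Unit) :
    φ (sys u j₀ a k z) = sys u j₀ (fun e => φ (a e)) (fun z => φ (k z)) z := by
  rcases z with β | z
  · simp only [sys, Sum.elim_inl, map_cf, hom_xv]
  · simp only [sys, Sum.elim_inr, hom_pd]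
    congr 1
    congr 1
    funext z
    rcases z with i | j
    · simp only [Sum.elim_inl, hom_xv]
    · simp only [Sum.elim_inr, hom_tv]

theorem hom_opn (φ : R →+* S) (u : M → Fin (s + 1)) (j₀ : Fin b) (a : Ix (s + 1) M → R)
    (k : M ⊕ Unit → R) :
    φ (opn u j₀ a k) = opn u j₀ (fun e => φ (a e)) (fun z => φ (k z)) := by
  have h1 : (fun z => φ (Sum.elim (xv u k) (tv j₀ k) z)) =
      Sum.elim (xv u fun z => φ (k z)) (tv j₀ fun z => φ (k z)) := by
    funext z
    rcases z with i | j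
    · simp only [Sum.elim_inl, hom_xv]
    · simp only [Sum.elim_inr, hom_tv]
  have h2 : (fun z => φ (Sum.elim (xv u k) (fun _ => 0) z)) =
      (Sum.elim (xv u fun z => φ (k z)) (fun _ => 0) : Fin (s + 1) ⊕ Fin b → S) := by
    funext z
    rcases z with i | j
    · simp only [Sum.elim_inl, hom_xv]
    · simp only [Sum.elim_inr, map_zero]
  have h3 : (fun z => φ (Sum.elim (fun i : Fin s => xv u k i.castSucc) (tv j₀ k) z)) =
      Sum.elim (fun i : Fin s => xv u (fun z => φ (k z)) i.castSucc)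
        (tv j₀ fun z => φ (k z)) := by
    funext z
    rcases z with i | j
    · simp only [Sum.elim_inl, hom_xv]
    · simp only [Sum.elim_inr, hom_tv]
  simp only [opn, map_mul, map_prod, hom_pd, h1, h2]
  rw [hom_eval, h3, map_form]
  rfl

end val

section main

variable {s b : ℕ} {M : Finset (Fin b →₀ ℕ)}

/-- the unknowns at the example -/
def k₀ : M ⊕ Unit → ℚ := Sum.elim (fun _ => 0) (fun _ => 1)

theorem xv_k₀ (u : M → Fin (s + 1)) (i : Fin (s + 1)) : xv u (k₀ : M ⊕ Unit → ℚ) i = 0 := by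
  simp [xv, k₀]

theorem tv_k₀ (j₀ : Fin b) (j : Fin b) : tv j₀ (k₀ : M ⊕ Unit → ℚ) j = 1 := by
  simp [tv, k₀]

variable [DecidableEq M] (u : M → Fin (s + 1)) (j₀ : Fin b)

theorem sum_lin (hu : Function.Injective u) (β₁ : M) (hl : u β₁ = Fin.last s)
    (h0 : 0 ∈ M) (f : M → ℚ) :
    ∑ β, lin ℚ u (Fin.last s) β * f β = f β₁ - f ⟨0, h0⟩ := by
  simp only [lin, add_mul, Finset.sum_add_distrib, ite_mul, one_mul, zero_mul, if_true]
  rw [sub_eq_add_neg]
  congr 1
  · rw [Finset.sum_eq_single β₁]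
    · rw [if_pos hl]
    · intro β _ hβ
      rw [if_neg]
      intro h
      exact hβ (hu (h.trans hl.symm))
    · intro h
      exact absurd (Finset.mem_univ _) h
  · rw [Finset.sum_eq_single ⟨0, h0⟩]
    · simp
    · intro β _ hβ
      rw [if_neg]
      intro h
      exact hβ (Subtype.ext h)
    · intro h
      exact absurd (Finset.mem_univ _) h

theorem sys_k₀ (hu : Function.Injective u) (β₁ : M) (hl : u β₁ = Fin.last s)
    (h0 : 0 ∈ M) (z : M ⊕ Unit) : sys u j₀ (ex ℚ u) k₀ z = 0 := by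
  rcases z with β | z
  · simp only [sys, Sum.elim_inl, cf_ex, xv_k₀]
    simp
  · simp only [sys, Sum.elim_inr, pd_ex, Sum.elim_inl, xv_k₀, tv_k₀]
    have := sum_lin u hu β₁ hl h0 (fun _ => 1)
    simp only [mul_zero, ite_self, add_zero, one_pow, Finset.prod_const_one]
    rw [this, sub_self]

theorem opn_k₀ (hu : Function.Injective u) (β₁ : M) (hl : u β₁ = Fin.last s)
    (h0 : 0 ∈ M) (hj : (β₁ : Fin b →₀ ℕ) j₀ ≠ 0) : opn u j₀ (ex ℚ u) k₀ ≠ 0 := by
  unfold opn
  rw [form_sub_ex u h0, mul_one]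
  refine mul_ne_zero (Finset.prod_ne_zero_iff.2 fun i _ => ?_) ?_
  · rw [pd_ex]
    simp only [Sum.elim_inl, Sum.elim_inr, xv_k₀, tv_k₀, mul_zero, ite_self, add_zero, one_pow,
      Finset.prod_const_one, mul_one]
    have h1 : ∀ β : M, (0 : ℚ) ≤ lin ℚ u i.castSucc β := by
      intro β
      unfold lin
      rw [if_neg (Fin.castSucc_lt_last i).ne]
      positivity
    refine (Finset.sum_pos' (fun β _ => h1 β) ⟨⟨0, h0⟩, Finset.mem_univ _, ?_⟩).ne'
    unfold lin
    rw [if_neg (Fin.castSucc_lt_last i).ne, if_pos rfl]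
    positivity
  · rw [pd_ex]
    simp only [Sum.elim_inl, Sum.elim_inr, xv_k₀, mul_zero, ite_self, add_zero]
    have := sum_lin u hu β₁ hl h0 (fun β => ∏ j, (0 : ℚ) ^ (β : Fin b →₀ ℕ) j)
    rw [this, Finset.prod_eq_zero (Finset.mem_univ j₀) (zero_pow hj)]
    simp

/-- the system with generic coefficients and unknowns -/
noncomputable def gsys (z : M ⊕ Unit) : MvPolynomial (Ix (s + 1) M ⊕ (M ⊕ Unit)) ℚ :=
  sys u j₀ (fun e => X (.inl e)) (fun z => X (.inr z)) z

omit [DecidableEq M] in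
theorem aeval_gsys {L : Type} [CommRing L] [Algebra ℚ L] (a : Ix (s + 1) M → L)
    (k : M ⊕ Unit → L) (z : M ⊕ Unit) :
    aeval (Sum.elim a k) (gsys u j₀ z) = sys u j₀ a k z := by
  have h := hom_sys (aeval (Sum.elim a k) :
    MvPolynomial (Ix (s + 1) M ⊕ (M ⊕ Unit)) ℚ →ₐ[ℚ] L).toRingHom u j₀
    (fun e => X (.inl e)) (fun z => X (.inr z)) z
  refine h.trans ?_
  congr 1
  · funext e
    exact aeval_X _ _
  · funext z
    exact aeval_X _ _

omit [DecidableEq M] in
theorem pd_xv (z : M ⊕ Unit) (i : Fin (s + 1)) :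
    pderiv z (xv u (fun z => (X z : MvPolynomial (M ⊕ Unit) ℚ)) i) =
      Sum.elim (fun β => if u β = i then 1 else 0) (fun _ => 0) z := by
  classical
  unfold xv
  rw [map_sum]
  rcases z with β | z
  · rw [Finset.sum_eq_single β]
    · simp [apply_ite (pderiv (Sum.inl β))]
    · intro γ _ hγ
      by_cases h : u γ = i
      · rw [if_pos h, pderiv_X_of_ne (fun h => hγ (Sum.inl_injective h))]
      · rw [if_neg h, map_zero]
    · intro h
      exact absurd (Finset.mem_univ _) h
  · refine Finset.sum_eq_zero fun γ _ => ?_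
    by_cases h : u γ = i
    · rw [if_pos h, pderiv_X_of_ne (by simp)]
    · rw [if_neg h, map_zero]

/-- the rows of the Jacobian of the first equations -/
theorem jac_inl (β : M) (z : M ⊕ Unit) :
    eval (Sum.elim (ex ℚ u) k₀) (pderiv (Sum.inr z) (gsys u j₀ (.inl β))) =
      Sum.elim (fun γ => lin ℚ u (u γ) β) (fun _ => 0) z := by
  rw [pd_spec, aeval_gsys]
  have h1 : (fun e => (C (ex ℚ u e) : MvPolynomial (M ⊕ Unit) ℚ)) = ex _ u := by
    funext e
    exact hom_ex u C e
  simp only [sys, Sum.elim_inl, h1, cf_ex, map_add, map_sum,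
    ← hom_lin u (C : ℚ →+* MvPolynomial (M ⊕ Unit) ℚ), pderiv_C_mul, pd_xv, map_mul, eval_C]
  have h2 : eval (k₀ : M ⊕ Unit → ℚ) (pderiv z (if (β : Fin b →₀ ℕ) = 0 then
      xv u (fun z => (X z : MvPolynomial (M ⊕ Unit) ℚ)) (Fin.last s) ^ 2 else 0)) = 0 := by
    by_cases h : (β : Fin b →₀ ℕ) = 0
    · rw [if_pos h, pderiv_pow, map_mul, map_mul, map_pow, hom_xv]
      have : (fun z => eval (k₀ : M ⊕ Unit → ℚ) (X z)) = k₀ := by
        funext z
        exact eval_X z
      rw [this, xv_k₀]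
      simp
    · rw [if_neg h, map_zero, map_zero]
  rw [h2, add_zero]
  rcases z with γ | z
  · simp [apply_ite (eval (k₀ : M ⊕ Unit → ℚ))]
  · simp

/-- the last entry of the last row of the Jacobian -/
theorem jac_inr (hu : Function.Injective u) (β₁ : M) (hl : u β₁ = Fin.last s)
    (h0 : 0 ∈ M) :
    eval (Sum.elim (ex ℚ u) k₀) (pderiv (Sum.inr (.inr ())) (gsys u j₀ (.inr ()))) =
      (β₁ : Fin b →₀ ℕ) j₀ := by
  rw [pd_spec, aeval_gsys]
  have h1 : (fun e => (C (ex ℚ u e) : MvPolynomial (M ⊕ Unit) ℚ)) = ex _ u := by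
    funext e
    exact hom_ex u C e
  have h3 : (fun z => eval (k₀ : M ⊕ Unit → ℚ) (X z)) = k₀ := by
    funext z
    exact eval_X z
  have h2 : ∀ β : M, eval (k₀ : M ⊕ Unit → ℚ) (if (β : Fin b →₀ ℕ) = 0 then
      2 * xv u (fun z => (X z : MvPolynomial (M ⊕ Unit) ℚ)) (Fin.last s) else 0) = 0 := by
    intro β
    by_cases h : (β : Fin b →₀ ℕ) = 0
    · rw [if_pos h, map_mul, hom_xv, h3, xv_k₀, mul_zero]
    · rw [if_neg h, map_zero]
  have h4 : ∀ β : M, pderiv (Sum.inr ()) (if (β : Fin b →₀ ℕ) = 0 then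
      2 * xv u (fun z => (X z : MvPolynomial (M ⊕ Unit) ℚ)) (Fin.last s) else 0) = 0 := by
    intro β
    by_cases h : (β : Fin b →₀ ℕ) = 0
    · have h5 : (2 : MvPolynomial (M ⊕ Unit) ℚ) = C 2 := (map_ofNat C 2).symm
      rw [if_pos h, h5, pderiv_C_mul, pd_xv, Sum.elim_inr, mul_zero]
    · rw [if_neg h, map_zero]
  have h6 : ∀ β : M, pderiv (Sum.inr ()) (lin (MvPolynomial (M ⊕ Unit) ℚ) u
      (Fin.last s) β) = 0 := by
    intro β
    rw [← hom_lin u (C : ℚ →+* MvPolynomial (M ⊕ Unit) ℚ), pderiv_C]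
  have h7 : ∀ β : M, eval k₀ (lin (MvPolynomial (M ⊕ Unit) ℚ) u (Fin.last s) β) =
      lin ℚ u (Fin.last s) β := by
    intro β
    rw [hom_lin u (eval k₀)]
  have h8 : (k₀ : M ⊕ Unit → ℚ) (.inr ()) = 1 := rfl
  simp only [sys, Sum.elim_inr, Sum.elim_inl, h1, pd_ex, prod_tv, map_sum, pderiv_mul, map_add,
    map_mul, pderiv_pow, pderiv_X_self, mul_one, map_pow, eval_X, one_pow, map_natCast,
    if_true, h2, h4, h6, h7, h8, add_zero, zero_add, zero_mul]
  rw [sum_lin u hu β₁ hl h0 (fun β => ((β : Fin b →₀ ℕ) j₀ : ℚ))]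
  simp

theorem det_ne (hu : Function.Injective u) (β₁ : M) (hl : u β₁ = Fin.last s)
    (h0 : 0 ∈ M) (hj : (β₁ : Fin b →₀ ℕ) j₀ ≠ 0) :
    (Matrix.of fun i j => eval (Sum.elim (ex ℚ u) k₀)
      (pderiv (Sum.inr j) (gsys u j₀ i))).det ≠ 0 := by
  intro hd
  obtain ⟨v, hv, hv0⟩ := Matrix.exists_mulVec_eq_zero_iff.2 hd
  apply hv
  have hrow : ∀ β : M, ∑ γ, lin ℚ u (u γ) β * v (.inl γ) = 0 := by
    intro β
    have h := congrFun hv0 (.inl β)
    simp only [Matrix.mulVec, dotProduct, Matrix.of_apply, Fintype.sum_sum_type, jac_inl,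
      Sum.elim_inl, Sum.elim_inr, zero_mul, Finset.sum_const_zero, add_zero, Pi.zero_apply] at h
    exact h
  have hne : ∀ β : M, (β : Fin b →₀ ℕ) ≠ 0 → v (.inl β) = 0 := by
    intro β hβ
    have h := hrow β
    rw [Finset.sum_eq_single β] at h
    · simpa [lin, hβ] using h
    · intro γ _ hγ
      have : u β ≠ u γ := fun h => hγ (hu h).symm
      simp [lin, hβ, this]
    · intro h
      exact absurd (Finset.mem_univ _) h
  have hz : v (.inl ⟨0, h0⟩) = 0 := by
    have h := hrow ⟨0, h0⟩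
    rw [Finset.sum_eq_single ⟨0, h0⟩] at h
    · have h1 : u ⟨0, h0⟩ ≠ Fin.last s := by
        intro h
        have h2 := hu (h.trans hl.symm)
        apply hj
        rw [← h2]
        rfl
      have h2 : lin ℚ u (u ⟨0, h0⟩) (⟨0, h0⟩ : M) = 2 := by
        unfold lin
        rw [if_pos rfl, if_pos rfl, if_neg h1]
        norm_num
      rw [h2] at h
      linarith
    · intro γ _ hγ
      rw [hne γ (fun h => hγ (Subtype.ext h)), mul_zero]
    · intro h
      exact absurd (Finset.mem_univ _) h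
  have hall : ∀ β : M, v (.inl β) = 0 := by
    intro β
    by_cases hβ : (β : Fin b →₀ ℕ) = 0
    · have : β = ⟨0, h0⟩ := Subtype.ext hβ
      rw [this, hz]
    · exact hne β hβ
  have hun : v (.inr ()) = 0 := by
    have h := congrFun hv0 (.inr ())
    simp only [Matrix.mulVec, dotProduct, Matrix.of_apply, Fintype.sum_sum_type, hall,
      mul_zero, Finset.sum_const_zero, zero_add, Pi.zero_apply, Finset.univ_unique,
      Finset.sum_singleton, PUnit.default_eq_unit] at h
    rw [jac_inr u j₀ hu β₁ hl h0] at h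
    exact (mul_eq_zero.1 h).resolve_left (Nat.cast_ne_zero.2 hj)
  funext z
  rcases z with β | z
  · exact hall β
  · exact hun

end main

variable {b : ℕ} {M : Finset (Fin b →₀ ℕ)}

theorem exists_inj {s : ℕ} (hr : M.card ≤ s + 1) (β₁ : M) :
    ∃ u : M → Fin (s + 1), Function.Injective u ∧ u β₁ = Fin.last s := by
  classical
  obtain ⟨f⟩ : Nonempty (M ↪ Fin (s + 1)) := by
    refine Function.Embedding.nonempty_of_card_le ?_
    rw [Fintype.card_coe, Fintype.card_fin]
    exact hr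
  exact ⟨fun β => Equiv.swap (f β₁) (Fin.last s) (f β),
    (Equiv.injective _).comp f.injective, Equiv.swap_apply_left _ _⟩

theorem exists_good {s : ℕ} (h0 : 0 ∈ M) (h2 : 2 ≤ M.card) (hr : M.card ≤ s + 1) :
    ∃ Δ : MvPolynomial (Ix (s + 1) M) ℚ, Δ ≠ 0 ∧
    ∀ (K : Type) [Field K] [CharZero K] (a : Ix (s + 1) M → K), aeval a Δ ≠ 0 →
      ∃ (L : Type) (_ : Field L) (_ : CharZero L) (_ : Algebra K L) (_ : FiniteDimensional K L)
        (P : Fin (s + 1) → L) (t₀ : Fin b → L),
        (∀ β, cf (fun e => algebraMap K L (a e)) P β = 0) ∧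
        eval (Sum.elim P t₀) (pderiv (.inl (Fin.last s))
          (form fun e => algebraMap K L (a e))) = 0 ∧
        (∀ i : Fin s, eval (Sum.elim P t₀) (pderiv (.inl i.castSucc)
          (form fun e => algebraMap K L (a e))) ≠ 0) ∧
        eval (Sum.elim (fun i : Fin s => P i.castSucc) t₀)
          (form (sub 2 fun e => algebraMap K L (a e))) ≠ 0 ∧
        ∃ t₁ : Fin b → L, eval (Sum.elim P t₁) (pderiv (.inl (Fin.last s))
          (form fun e => algebraMap K L (a e))) ≠ 0 := by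
  classical
  obtain ⟨β₁, hβ₁, hne⟩ : ∃ β₁ ∈ M, β₁ ≠ 0 := Finset.exists_mem_ne h2 0
  obtain ⟨j₀, hj⟩ : ∃ j₀, β₁ j₀ ≠ 0 := by
    by_contra h
    push Not at h
    exact hne (Finsupp.ext h)
  obtain ⟨u, hu, hl⟩ := exists_inj hr ⟨β₁, hβ₁⟩
  have hae : ∀ p : MvPolynomial (Ix (s + 1) M ⊕ (M ⊕ Unit)) ℚ,
      eval (Sum.elim (ex ℚ u) k₀) p = aeval (Sum.elim (ex ℚ u) k₀) p := by
    intro p
    exact (DFunLike.congr_fun (coe_aeval_eq_eval _) p).symm
  obtain ⟨Δ, hΔ, h⟩ := Helper76.XN.et (E := Ix (s + 1) M) (I := M ⊕ Unit) (gsys u j₀)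
    (opn u j₀ (fun e => X (.inl e)) (fun z => X (.inr z))) (ex ℚ u) k₀
    (fun z => by rw [hae, aeval_gsys, sys_k₀ u j₀ hu ⟨β₁, hβ₁⟩ hl h0])
    (det_ne u j₀ hu ⟨β₁, hβ₁⟩ hl h0 hj)
    (by
      rw [hom_opn]
      have h1 : (fun e : Ix (s + 1) M => eval (Sum.elim (ex ℚ u) k₀)
          (X (.inl e) : MvPolynomial (Ix (s + 1) M ⊕ (M ⊕ Unit)) ℚ)) = ex ℚ u := by
        funext e
        exact eval_X _
      have h2 : (fun z : M ⊕ Unit => eval (Sum.elim (ex ℚ u) k₀)
          (X (.inr z) : MvPolynomial (Ix (s + 1) M ⊕ (M ⊕ Unit)) ℚ)) = k₀ := by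
        funext z
        exact eval_X _
      rw [h1, h2]
      exact opn_k₀ u j₀ hu ⟨β₁, hβ₁⟩ hl h0 hj)
  refine ⟨Δ, hΔ, fun K _ _ a ha => ?_⟩
  obtain ⟨L, i1, i2, i3, i4, k, hF, -, hG⟩ := h K a ha
  have hG2 : opn u j₀ (fun e => algebraMap K L (a e)) k ≠ 0 := by
    have h1 := hom_opn (aeval (Sum.elim (fun e => algebraMap K L (a e)) k) :
      MvPolynomial (Ix (s + 1) M ⊕ (M ⊕ Unit)) ℚ →ₐ[ℚ] L).toRingHom u j₀
      (fun e => X (.inl e)) (fun z => X (.inr z))
    have h2 : (fun e : Ix (s + 1) M => (aeval (Sum.elim (fun e => algebraMap K L (a e)) k) :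
      MvPolynomial (Ix (s + 1) M ⊕ (M ⊕ Unit)) ℚ →ₐ[ℚ] L).toRingHom (X (.inl e))) =
        fun e => algebraMap K L (a e) := by
      funext e
      exact aeval_X _ _
    have h3 : (fun z : M ⊕ Unit => (aeval (Sum.elim (fun e => algebraMap K L (a e)) k) :
      MvPolynomial (Ix (s + 1) M ⊕ (M ⊕ Unit)) ℚ →ₐ[ℚ] L).toRingHom (X (.inr z))) = k := by
      funext z
      exact aeval_X _ _
    rw [h2, h3] at h1
    rw [← h1]
    exact hG
  have hF2 : ∀ z, sys u j₀ (fun e => algebraMap K L (a e)) k z = 0 := by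
    intro z
    rw [← aeval_gsys]
    exact hF z
  have h3 := mul_ne_zero_iff.1 hG2
  have h4 := mul_ne_zero_iff.1 h3.1
  exact ⟨L, i1, i2, i3, i4, xv u k, tv j₀ k, fun β => hF2 (.inl β), hF2 (.inr ()),
    fun i => (Finset.prod_ne_zero_iff.1 h4.1) i (Finset.mem_univ i), h4.2, fun _ => 0, h3.2⟩

end Pool.Agent.Helper16.R
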